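import Mathlib
import Pool.Agent.NC76.Defs
import Pool.Agent.NC76.Final

/-!
# Geodesics from a common point need not diverge, although there are no conjugate points

In every dimension `n ≥ 3` there is a complete Riemannian metric on `ℝⁿ` without conjugate points
and two distinct unit speed geodesics `α`, `β` with `α(0) = β(0)` whose distance
`dist(α(t), β(t))` stays bounded for all `t ≥ 0`.

The metric is explicit: on `ℝ³` with coordinates `(s, y, z)`
`g = (1 + e^{2(s-y)}) ds² + (e^{-2s} + e^{-2y}) dy² + (1 + e^{2(y-s)}) dz²`,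
and for `n > 3` its product with a Euclidean space.
-/

set_option autoImplicit false

namespace Pool.Agent.Results.MP_3d5957_gt.NoDivergence

open Pool.Agent.NC76

theorem result : ∀ n : ℕ, 3 ≤ n → ∃ g : RMetric n, g.Complete ∧ g.NoConjugatePoints ∧
    ∃ α β : ℝ → Fin n → ℝ, g.IsUnitSpeedGeodesic α ∧ g.IsUnitSpeedGeodesic β ∧ α 0 = β 0 ∧
      deriv α 0 ≠ deriv β 0 ∧ ∃ C : ℝ, ∀ t ≥ 0, g.dist (α t) (β t) ≤ C :=
  final

end Pool.Agent.Results.MP_3d5957_gt.NoDivergence
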